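import Pool.Agent.Y157.GT.Stm

/-!
# From the Kummer argument to the action on `M₀` (job GT-PT)
-/

set_option autoImplicit false
set_option linter.all false

open Polynomial FF

namespace Pool.Agent.Y978.GT

open Pool.Agent.Y157.PS Pool.Agent.Y157.GT

section lift

variable {k κ₀ κ : Type} [Field k] [Field κ₀] [Algebra k κ₀] [Field κ] [Algebra κ₀ κ] [Algebra k κ]
  [IsScalarTower k κ₀ κ]

/-- `k(ρ)` is contained in `κ₀(ρ)` -/
theorem mem_L (ρ : κ) {z : κ} (hz : z ∈ IntermediateField.adjoin k {ρ}) :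
    z ∈ IntermediateField.adjoin κ₀ {ρ} := by
  have h1 : IntermediateField.adjoin k {ρ} ≤
      (IntermediateField.adjoin κ₀ {ρ}).restrictScalars k := by
    rw [IntermediateField.adjoin_le_iff]
    intro y hy
    exact IntermediateField.subset_adjoin κ₀ {ρ} hy
  exact h1 hz

theorem fixK (ρ : κ) (g : κ ≃ₐ[IntermediateField.adjoin κ₀ {ρ}] κ) {z : κ}
    (hz : z ∈ IntermediateField.adjoin κ₀ {ρ}) : g z = z := by
  have h := g.commutes ⟨z, hz⟩
  rwa [IntermediateField.algebraMap_apply] at h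

theorem fixk (ρ : κ) (g : κ ≃ₐ[IntermediateField.adjoin k {ρ}] κ) {z : κ}
    (hz : z ∈ IntermediateField.adjoin k {ρ}) : g z = z := by
  have h := g.commutes ⟨z, hz⟩
  rwa [IntermediateField.algebraMap_apply] at h

theorem cv_comm (ρ : κ) (g : κ ≃ₐ[IntermediateField.adjoin κ₀ {ρ}] κ)
    (c : IntermediateField.adjoin k {ρ}) :
    g.toRingEquiv (algebraMap (IntermediateField.adjoin k {ρ}) κ c) =
      algebraMap (IntermediateField.adjoin k {ρ}) κ c := by
  rw [IntermediateField.algebraMap_apply]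
  exact fixK ρ g (mem_L ρ c.2)

/-- automorphisms over `κ₀(ρ)` as automorphisms over `k(ρ)` -/
noncomputable def cv0 (k : Type) {κ₀ κ : Type} [Field k] [Field κ₀] [Algebra k κ₀] [Field κ]
    [Algebra κ₀ κ] [Algebra k κ] [IsScalarTower k κ₀ κ] (ρ : κ)
    (g : κ ≃ₐ[IntermediateField.adjoin κ₀ {ρ}] κ) : κ ≃ₐ[IntermediateField.adjoin k {ρ}] κ :=
  AlgEquiv.ofRingEquiv (f := g.toRingEquiv) (cv_comm ρ g)

theorem cv0_apply (ρ : κ) (g : κ ≃ₐ[IntermediateField.adjoin κ₀ {ρ}] κ) (z : κ) :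
    cv0 k ρ g z = g z := rfl

/-- automorphisms over `κ₀(ρ)` as automorphisms over `k(ρ)` -/
noncomputable def cv (k : Type) {κ₀ κ : Type} [Field k] [Field κ₀] [Algebra k κ₀] [Field κ]
    [Algebra κ₀ κ] [Algebra k κ] [IsScalarTower k κ₀ κ] (ρ : κ) :
    (κ ≃ₐ[IntermediateField.adjoin κ₀ {ρ}] κ) →* (κ ≃ₐ[IntermediateField.adjoin k {ρ}] κ) where
  toFun g := cv0 k ρ g
  map_one' := by
    apply AlgEquiv.ext
    intro z
    rw [cv0_apply, AlgEquiv.one_apply, AlgEquiv.one_apply]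
  map_mul' g h := by
    apply AlgEquiv.ext
    intro z
    rw [cv0_apply, AlgEquiv.mul_apply, AlgEquiv.mul_apply, cv0_apply, cv0_apply]

theorem cv_apply (ρ : κ) (g : κ ≃ₐ[IntermediateField.adjoin κ₀ {ρ}] κ) (z : κ) :
    cv k ρ g z = g z := cv0_apply ρ g z

theorem fix_L (ρ : κ) (g : κ ≃ₐ[IntermediateField.adjoin k {ρ}] κ)
    (hg : ∀ c, g (algebraMap κ₀ κ c) = algebraMap κ₀ κ c) {z : κ}
    (hz : z ∈ IntermediateField.adjoin κ₀ {ρ}) : g z = z := by
  induction hz using IntermediateField.adjoin_induction with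
  | mem y hy =>
    rw [Set.mem_singleton_iff] at hy
    subst hy
    exact fixk y g (IntermediateField.mem_adjoin_simple_self k y)
  | algebraMap c => exact hg c
  | add a b _ _ ha hb => rw [map_add, ha, hb]
  | inv a _ ha => rw [map_inv₀, ha]
  | mul a b _ _ ha hb => rw [map_mul, ha, hb]

theorem lf_comm (ρ : κ) (g : κ ≃ₐ[IntermediateField.adjoin k {ρ}] κ)
    (hg : ∀ c, g (algebraMap κ₀ κ c) = algebraMap κ₀ κ c)
    (c : IntermediateField.adjoin κ₀ {ρ}) :
    g.toRingEquiv (algebraMap (IntermediateField.adjoin κ₀ {ρ}) κ c) =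
      algebraMap (IntermediateField.adjoin κ₀ {ρ}) κ c := by
  rw [IntermediateField.algebraMap_apply]
  exact fix_L ρ g hg c.2

/-- the converse -/
noncomputable def lf (ρ : κ) (g : κ ≃ₐ[IntermediateField.adjoin k {ρ}] κ)
    (hg : ∀ c, g (algebraMap κ₀ κ c) = algebraMap κ₀ κ c) :
    κ ≃ₐ[IntermediateField.adjoin κ₀ {ρ}] κ :=
  AlgEquiv.ofRingEquiv (f := g.toRingEquiv) (lf_comm ρ g hg)

theorem lf_apply (ρ : κ) (g : κ ≃ₐ[IntermediateField.adjoin k {ρ}] κ)
    (hg : ∀ c, g (algebraMap κ₀ κ c) = algebraMap κ₀ κ c) (z : κ) : lf ρ g hg z = g z := rfl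

theorem cv_lf (ρ : κ) (g : κ ≃ₐ[IntermediateField.adjoin k {ρ}] κ)
    (hg : ∀ c, g (algebraMap κ₀ κ c) = algebraMap κ₀ κ c) : cv k ρ (lf ρ g hg) = g := by
  apply AlgEquiv.ext
  intro z
  rw [cv_apply, lf_apply]

theorem cv_fix (ρ : κ) (g : κ ≃ₐ[IntermediateField.adjoin κ₀ {ρ}] κ) (c : κ₀) :
    cv k ρ g (algebraMap κ₀ κ c) = algebraMap κ₀ κ c := by
  rw [cv_apply]
  exact fixK ρ g (IntermediateField.algebraMap_mem _ c)

end lift

section act

variable {R₀ M₀ M G : Type} [Field R₀] [Field M₀] [Field M] [Algebra R₀ M₀] [Group G]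

/-- a group which acts on `M` and maps `ι(M₀)` to itself and fixes `ι(R₀)` acts on `M₀` -/
theorem exists_act (ι : M₀ →+* M) (s : G →* RingAut M) (hs : ∀ g z₀, ∃ z₁, s g (ι z₀) = ι z₁)
    (hR : ∀ g (r : R₀), s g (ι (algebraMap R₀ M₀ r)) = ι (algebraMap R₀ M₀ r)) :
    ∃ α : G →* (M₀ ≃ₐ[R₀] M₀), ∀ g z₀, ι (α g z₀) = s g (ι z₀) := by
  choose a ha using hs
  have hι : Function.Injective ι := ι.injective
  have h1 : ∀ z, a 1 z = z := fun z => hι (by rw [← ha, map_one]; rfl)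
  have hm : ∀ g h z, a (g * h) z = a g (a h z) := fun g h z => hι (by
    rw [← ha, ← ha, ← ha, map_mul]; rfl)
  let e : G → (M₀ ≃ₐ[R₀] M₀) := fun g =>
    { toFun := a g
      invFun := a g⁻¹
      left_inv := fun z => by rw [← hm, inv_mul_cancel, h1]
      right_inv := fun z => by rw [← hm, mul_inv_cancel, h1]
      map_mul' := fun z w => hι (by rw [← ha, map_mul, map_mul, map_mul, ha, ha])
      map_add' := fun z w => hι (by rw [← ha, map_add, map_add, map_add, ha, ha])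
      commutes' := fun r => hι (by rw [← ha]; exact hR g r) }
  refine ⟨⟨⟨e, ?_⟩, ?_⟩, ?_⟩
  · ext z; exact h1 z
  · intro g h; ext z; exact hm g h z
  · intro g z; exact (ha g z).symm

end act

theorem pt (hKUP : S_KUP) (hPW : S_PW) : S_PT := by
  intro ℓ _ k κ₀ κ R₀ R M₀ M _ _ _ _ _ _ _ _ _ _ _ _ _ _ _ _ _ _ _ _ _ _ hfg ρ hρ halg x₀ x B₀ B
    Y₀ Y ι hP s hs hst g₀ hg₀ z₀
  by_contra hne
  have hac : IsAlgClosed κ₀ := IsAlgClosure.isAlgClosed k
  have hc0 : CharZero κ₀ := charZero_of_injective_algebraMap (algebraMap k κ₀).injective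
  -- the action of the geometric part
  set s' : (κ ≃ₐ[IntermediateField.adjoin κ₀ {ρ}] κ) →* RingAut M := s.comp (cv k ρ) with hs'
  have hfix : ∀ (g : κ ≃ₐ[IntermediateField.adjoin κ₀ {ρ}] κ) (r : R₀),
      s' g (ι (algebraMap R₀ M₀ r)) = ι (algebraMap R₀ M₀ r) := by
    intro g r
    have hr : r ∈ IntermediateField.adjoin κ₀ {x₀} := by
      rw [hP.cov₀.rat.gen]; trivial
    induction hr using IntermediateField.adjoin_induction with
    | mem y hy =>
      rw [Set.mem_singleton_iff] at hy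
      subst hy
      rw [hP.var]
      exact hs.fixx _
    | algebraMap c =>
      rw [← IsScalarTower.algebraMap_apply κ₀ R₀ M₀, hP.const]
      show s (cv k ρ g) _ = _
      rw [hs.const, cv_fix]
    | add a b _ _ ha hb => rw [map_add, map_add, map_add, ha, hb]
    | inv a _ ha => rw [map_inv₀, map_inv₀, map_inv₀, ha]
    | mul a b _ _ ha hb => rw [map_mul, map_mul, map_mul, ha, hb]
  obtain ⟨α, hα⟩ := exists_act (R₀ := R₀) ι s' (fun g z => hst _ z) hfix
  -- a finite level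
  obtain ⟨N₀, hz₀, hN₀⟩ := hP.cov₀.pow z₀
  have hfin := hN₀.fin
  have hgal := hN₀.gal
  obtain ⟨m₀, hm₀⟩ := hN₀.card
  have hpg : IsPGroup ℓ (N₀ ≃ₐ[R₀] N₀) := by
    apply IsPGroup.of_card (n := m₀)
    rw [IsGalois.card_aut_eq_finrank, hm₀]
  set θ : (κ ≃ₐ[IntermediateField.adjoin κ₀ {ρ}] κ) →* (N₀ ≃ₐ[R₀] N₀) :=
    (AlgEquiv.restrictNormalHom N₀).comp α with hθ
  have hθa : ∀ g (z : N₀), ((θ g z : N₀) : M₀) = α g z := fun g z =>
    AlgEquiv.restrictNormalHom_apply N₀ (α g) z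
  -- continuity
  have hcont : ∃ E : IntermediateField (IntermediateField.adjoin κ₀ {ρ}) κ,
      FiniteDimensional (IntermediateField.adjoin κ₀ {ρ}) E ∧
        ∀ g ∈ E.fixingSubgroup, θ g = 1 := by
    classical
    choose E hE hEs using hs.cont
    have hT : ∀ z, ∃ T : Finset κ, IntermediateField.adjoin (IntermediateField.adjoin k {ρ})
        (T : Set κ) = E z := by
      intro z
      have := hE z
      exact IntermediateField.essFiniteType_iff.1 inferInstance
    choose T hT' using hT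
    let b := Module.finBasis R₀ N₀
    let U : Finset κ := Finset.univ.biUnion fun i => T (ι (b i : M₀))
    refine ⟨IntermediateField.adjoin _ (U : Set κ), ?_, ?_⟩
    · exact IntermediateField.finiteDimensional_adjoin fun y _ =>
        (Algebra.IsAlgebraic.isAlgebraic y).isIntegral
    · intro g hg
      rw [IntermediateField.mem_fixingSubgroup_iff] at hg
      have hb : ∀ i, θ g (b i) = b i := by
        intro i
        apply Subtype.ext
        rw [hθa]
        apply ι.injective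
        rw [hα]
        refine hEs _ _ ?_
        rw [IntermediateField.mem_fixingSubgroup_iff]
        intro y hy
        rw [← hT'] at hy
        induction hy using IntermediateField.adjoin_induction with
        | mem y hy =>
          exact hg y (IntermediateField.subset_adjoin _ _ (by
            rw [Finset.mem_coe, Finset.mem_biUnion]
            exact ⟨i, Finset.mem_univ i, hy⟩))
        | algebraMap c =>
          rw [IntermediateField.algebraMap_apply]
          exact fixk ρ (cv k ρ g) c.2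
        | add a b _ _ ha hb => rw [map_add, ha, hb]
        | inv a _ ha => rw [map_inv₀, ha]
        | mul a b _ _ ha hb => rw [map_mul, ha, hb]
      have hlin : (θ g).toLinearMap = LinearMap.id := b.ext fun i => hb i
      ext z
      exact congrArg Subtype.val (LinearMap.congr_fun hlin z)
  have hne1 : ∃ g, θ g ≠ 1 := by
    refine ⟨lf ρ g₀ hg₀, fun h => hne ?_⟩
    have h1 := hθa (lf ρ g₀ hg₀) ⟨z₀, hz₀⟩
    rw [h] at h1
    have h2 := hα (lf ρ g₀ hg₀) z₀
    have h3 : s' (lf ρ g₀ hg₀) = s g₀ := by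
      rw [hs', MonoidHom.comp_apply, cv_lf]
    rw [h3] at h2
    rw [← h2]
    exact (congrArg ι h1).symm
  obtain ⟨w, A₀, m, hA₀, hm, hw, hfixw⟩ := hKUP ℓ κ₀ κ ρ hρ halg (N₀ ≃ₐ[R₀] N₀) hpg θ hcont hne1
  obtain ⟨g, hg1, hg2, hg3⟩ := hPW ℓ k κ₀ κ R₀ R M₀ M hfg ρ hρ halg x₀ x B₀ B Y₀ Y ι hP s hs hst
    w A₀ m hA₀ hm hw
  apply hg2
  have h1 : θ (lf ρ g hg1) = 1 := by
    ext z
    rw [hθa]
    apply ι.injective
    rw [hα]
    have h3 : s' (lf ρ g hg1) = s g := by
      rw [hs', MonoidHom.comp_apply, cv_lf]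
    rw [h3]
    exact hg3 _
  have h2 := hfixw _ h1
  rwa [lf_apply] at h2

end Pool.Agent.Y978.GT
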